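import Pool.Agent.V11131.Mod7

/-!
An infinite torsion subgroup of an asymptotically rigid mapping class group.
-/

namespace Pool.Agent.Results.MP_310563_al.InfiniteTorsion

open Pool.Agent.V11131.Mod

/-- There is a locally finite planar tree A, in which one vertex (the root) has degree 1 and
all the other vertices have degree 3, such that the asymptotically rigid mapping class group
mod(A) has an infinite subgroup all of whose elements have finite order.  The subgroup is
abelian, the orders of its elements are powers of 2, and it is 2-divisible. -/
theorem result : ∃ X : TreeSurface, X.IsA21 ∧ HasInfTorsion X.MCG :=
  ⟨XX, XX_A21, MCG_inf⟩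

end Pool.Agent.Results.MP_310563_al.InfiniteTorsion
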